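import Pool.Agent.Helper37.Arb.Goals

/-!
# Packet ARB-RBESIDE: the response of `beside P T`
-/

namespace Pool.Agent.Helper91.Arb

open Pool.Agent.Helper36.SC Pool.Agent.Helper37.Arb Polynomial

/-- Multiplication of a block matrix with two one-entry off-diagonal blocks. -/
theorem block_mulVec {V W : Type} [Fintype V] [DecidableEq V] [Fintype W] [DecidableEq W]
    (M₁ : Matrix V V ℝ) (M₂ : Matrix W W ℝ) (v p : V) (w q : W) (c d : ℝ)
    (h₁ : V → ℝ) (h₂ : W → ℝ) :
    (Matrix.fromBlocks M₁ (-Matrix.single v q c) (-Matrix.single w p d) M₂).mulVec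
        (Sum.elim h₁ h₂) =
      Sum.elim (M₁.mulVec h₁ - Pi.single v (c * h₂ q))
        (M₂.mulVec h₂ - Pi.single w (d * h₁ p)) := by
  rw [Matrix.fromBlocks_mulVec]
  congr 1
  · funext u
    simp only [Sum.elim_comp_inl, Sum.elim_comp_inr, Pi.add_apply, Pi.sub_apply,
      Matrix.neg_mulVec, Pi.neg_apply, Matrix.single_mulVec, Function.update_apply,
      Pi.zero_apply]
    rw [← sub_eq_add_neg]
    congr 1
    by_cases h : u = v
    · subst h; simp
    · simp [h]
  · funext u
    simp only [Sum.elim_comp_inl, Sum.elim_comp_inr, Pi.add_apply, Pi.sub_apply,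
      Matrix.neg_mulVec, Pi.neg_apply, Matrix.single_mulVec, Function.update_apply,
      Pi.zero_apply]
    rw [add_comm, ← sub_eq_add_neg]
    congr 1
    by_cases h : u = w
    · subst h; simp
    · simp [h]

theorem respBeside : GoalRespBeside := by
  intro hMat hDet P T j₁ j₂ A B L R b hAB hV hP hT x hx
  obtain ⟨hne, hP⟩ := hP
  obtain ⟨hdP, hsP⟩ := hP x hx
  obtain ⟨hdT, hsT⟩ := hT x hx
  obtain ⟨hA, hB⟩ := hAB x hx
  obtain ⟨hL, hR, hb, hrel⟩ := hV x hx
  have hx0 : x ≠ 0 := hx.ne'
  have hc : 0 < A x + x * B x := by positivity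
  have ha : 0 < b x + R x := by positivity
  have ha' : 0 < B x * b x + (B x * R x + A x * b x) := by positivity
  have hM := hMat P T x hne
  refine ⟨?_, ?_⟩
  · obtain ⟨h₁, e₁, -, v₁⟩ := hsP 0 1
    obtain ⟨h₂, e₂, v₂, -⟩ := hsT 1 0
    have hdet := hDet (openMat false P.diag x) (openMat true T.diag x) P.diag.r
      (P.diag.D.underNext P.diag.r) T.diag.l (T.diag.D.underNext T.diag.l)
      (fwd P.diag.D x P.diag.r) (fwd T.diag.D x T.diag.l) h₁ h₂
      (by rw [hdP]; positivity) (by rw [hdT]; positivity)
      (by rw [e₁]; simp) (by rw [e₂]; simp)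
    have hgoal : (openMat true (Tangle.beside P T).diag x).det =
        (openMat false P.diag x).det * (openMat true T.diag x).det *
          (1 - h₁ (P.diag.D.underNext P.diag.r) * h₂ (T.diag.D.underNext T.diag.l)) := by
      rw [hM]
      exact hdet
    rw [hgoal, hdP, hdT]
    have w₁ : h₁ (P.diag.D.underNext P.diag.r) = A x / (A x + x * B x) := by
      rw [eq_div_iff hc.ne']
      linarith
    have w₂ : h₂ (T.diag.D.underNext T.diag.l) = L x / (b x + R x) := by
      rw [eq_div_iff ha.ne']
      linarith
    rw [w₁, w₂, zpow_add₀ hx0, zpow_add₀ hx0, zpow_one]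
    field_simp
    have hLe : L x = R x + (1 - x) * b x := by linarith
    rw [hLe]
    ring
  · intro s t
    set a' := B x * b x + (B x * R x + A x * b x) with ha'def
    set g := (B x * L x * s + b x * (A x + x * B x) * t) / a' with hg
    set m := (B x * (b x + R x) * s + A x * b x * t) / a' with hm
    have hLe : L x = R x + (1 - x) * b x := by linarith
    obtain ⟨h₁, e₁, u₁, v₁⟩ := hsP s g
    obtain ⟨h₂, e₂, u₂, v₂⟩ := hsT m t
    have hgm : g * a' = B x * L x * s + b x * (A x + x * B x) * t := by
      rw [hg]; field_simp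
    have hmm : m * a' = B x * (b x + R x) * s + A x * b x * t := by
      rw [hm]; field_simp
    have w₁ : h₁ (P.diag.D.underNext P.diag.r) = m := by
      have h3 : (A x + x * B x) * a' * h₁ (P.diag.D.underNext P.diag.r)
          = (A x + x * B x) * a' * m := by
        have : (A x + x * B x) * a' * h₁ (P.diag.D.underNext P.diag.r) =
            a' * ((A x + x * B x) * h₁ (P.diag.D.underNext P.diag.r)) := by ring
        rw [this, v₁]
        have e3 : a' * (x * B x * s + A x * g) = x * B x * s * a' + A x * (g * a') := by ring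
        have e4 : (A x + x * B x) * a' * m = (A x + x * B x) * (m * a') := by ring
        rw [e3, e4, hgm, hmm, ha'def, hLe]
        ring
      exact mul_left_cancel₀ (mul_pos hc ha').ne' h3
    have w₂ : h₂ (T.diag.D.underNext T.diag.l) = g := by
      have h3 : (b x + R x) * a' * h₂ (T.diag.D.underNext T.diag.l)
          = (b x + R x) * a' * g := by
        have : (b x + R x) * a' * h₂ (T.diag.D.underNext T.diag.l) =
            a' * ((b x + R x) * h₂ (T.diag.D.underNext T.diag.l)) := by ring
        rw [this, u₂]
        have e3 : a' * (L x * m + x * b x * t) = L x * (m * a') + x * b x * t * a' := by ring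
        have e4 : (b x + R x) * a' * g = (b x + R x) * (g * a') := by ring
        rw [e3, e4, hgm, hmm, ha'def, hLe]
        ring
      exact mul_left_cancel₀ (mul_pos ha ha').ne' h3
    refine ⟨Sum.elim h₁ h₂, ?_, ?_, ?_⟩
    · rw [hM]
      refine (block_mulVec (openMat false P.diag x) (openMat true T.diag x) P.diag.r
        (P.diag.D.underNext P.diag.r) T.diag.l (T.diag.D.underNext T.diag.l)
        (fwd P.diag.D x P.diag.r) (fwd T.diag.D x T.diag.l) h₁ h₂).trans ?_
      rw [w₁, w₂, e₁, e₂]
      change _ = (Pi.single (Sum.inl P.diag.l) (fwd P.diag.D x P.diag.l * s) +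
        Pi.single (Sum.inr (T.diag.D.overNext T.diag.r))
          (bwd T.diag.D x (T.diag.D.overNext T.diag.r) * t) : P.diag.V ⊕ T.diag.V → ℝ)
      funext u
      rcases u with u | u
      · simp [Pi.single_apply]
      · simp [Pi.single_apply]
    · have hun : (Tangle.beside P T).diag.D.underNext (Tangle.beside P T).diag.l =
          Sum.inl (P.diag.D.underNext P.diag.l) := by
        change (Equiv.sumCongr P.diag.D.underNext T.diag.D.underNext)
          (Equiv.swap (Sum.inl P.diag.r) (Sum.inr T.diag.l) (Sum.inl P.diag.l)) = _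
        rw [Equiv.swap_apply_of_ne_of_ne (by simpa using hne) (by simp)]
        rfl
      rw [hun]
      change a' * h₁ (P.diag.D.underNext P.diag.l) = _
      have h3 : (A x + x * B x) * (a' * h₁ (P.diag.D.underNext P.diag.l)) =
          (A x + x * B x) * ((B x * L x + A x * b x) * s + x * (B x * b x) * t) := by
        have : (A x + x * B x) * (a' * h₁ (P.diag.D.underNext P.diag.l)) =
            a' * ((A x + x * B x) * h₁ (P.diag.D.underNext P.diag.l)) := by ring
        rw [this, u₁]
        have e3 : a' * (A x * s + x * B x * g) = A x * s * a' + x * B x * (g * a') := by ring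
        rw [e3, hgm, ha'def, hLe]
        ring
      exact mul_left_cancel₀ hc.ne' h3
    · change a' * h₂ T.diag.r = _
      have h3 : (b x + R x) * (a' * h₂ T.diag.r) =
          (b x + R x) * (B x * b x * s + (B x * R x + A x * b x) * t) := by
        have : (b x + R x) * (a' * h₂ T.diag.r) = a' * ((b x + R x) * h₂ T.diag.r) := by ring
        rw [this, v₂]
        have e3 : a' * (b x * m + R x * t) = b x * (m * a') + R x * t * a' := by ring
        rw [e3, hmm, ha'def]
        ring
      exact mul_left_cancel₀ ha.ne' h3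

end Pool.Agent.Helper91.Arb
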